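import Mathlib
import Pool.Agent.Work.MP_787500_nt.KR.Defs

/-!
The definitions of `PA/Defs.lean` (cochains with values in `ℤ_2`, `ℚ_2`, normed groups) for systems of
normal subgroups of finite index. Fixed, do not change.
-/

set_option autoImplicit false

namespace Pool.Agent.Work.MP_787500_nt.KP

open Pool.Agent.Work.MP_787500_nt.KR (FSys Sm1 Sm2 IsChar C1)
open Pool.Agent.Work.MP_787500_nt.PA (dd toE dE)

variable {G : Type*} [Group G] (S : FSys G)

/-- `U` contains a member of the system -/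
def Opn (U : Subgroup G) : Prop := ∃ W, S.mem W ∧ W ≤ U

/-- uniform continuity for the system, two variables -/
def C2 (f : G → G → ℤ_[2]) : Prop :=
  ∀ n : ℕ, ∃ W, S.mem W ∧ ∀ g h, ∀ w ∈ W, ∀ w' ∈ W, (2 : ℤ_[2]) ^ n ∣ f (g * w) (h * w') - f g h

/-- continuous 2-cocycles with values in the 2-adic integers twisted by `χ` -/
def Z2 (χ : G → ℤ_[2]) (f : G → G → ℤ_[2]) : Prop :=
  C2 S f ∧ ∀ g h k, f g h + f (g * h) k = χ g * f h k + f g (h * k)

/-- coboundaries modulo `2 ^ n` -/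
def CobMod (χ : G → ℤ_[2]) (n : ℕ) (f : G → G → ℤ_[2]) : Prop :=
  ∃ z : G → ℤ_[2], Sm1 S z ∧ ∀ g h, (2 : ℤ_[2]) ^ n ∣ f g h - dd χ z g h

/-- coboundaries of continuous functions -/
def B2 (χ : G → ℤ_[2]) (f : G → G → ℤ_[2]) : Prop :=
  ∃ z : G → ℤ_[2], C1 S z ∧ f = dd χ z

variable {E : Type*} [NormedField E] [NormedAlgebra ℚ_[2] E]

/-- uniform continuity for the system, values in a normed group -/
def N1 {A : Type*} [NormedAddCommGroup A] (z : G → A) : Prop :=
  ∀ ε : ℝ, 0 < ε → ∃ W, S.mem W ∧ ∀ g, ∀ w ∈ W, ‖z (g * w) - z g‖ < ε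

/-- uniform continuity for the system, two variables, values in a normed group -/
def N2 {A : Type*} [NormedAddCommGroup A] (f : G → G → A) : Prop :=
  ∀ ε : ℝ, 0 < ε → ∃ W, S.mem W ∧ ∀ g h, ∀ w ∈ W, ∀ w' ∈ W, ‖f (g * w) (h * w') - f g h‖ < ε

/-- continuous 2-cocycles with values in `E` twisted by `χ` -/
def ZE (χ : G → ℤ_[2]) (f : G → G → E) : Prop :=
  N2 S f ∧ ∀ g h k, f g h + f (g * h) k = toE E (χ g) * f h k + f g (h * k)

/-- coboundaries of continuous functions -/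
def BE (χ : G → ℤ_[2]) (f : G → G → E) : Prop := ∃ z : G → E, N1 S z ∧ f = dE χ z

end Pool.Agent.Work.MP_787500_nt.KP
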