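import Mathlib
import Pool.Agent.Work.MP_787500_nt.KP.Defs

/-!
# Module INVE (size M): extension of the invariant map to a finite extension

`E` finite dimensional over `ℚ_[2]`, `e` a basis, `φ i : E → ℚ_[2]` the coordinates (linear, hence
continuous: `LinearMap.continuous_of_finiteDimensional`, so `N1`, `N2` are preserved by `φ i ∘`, via
`‖φ i x‖ ≤ C ‖x‖`). Note `toE E a * x = (a : ℚ_[2]) • x`. For `f` in `ZE` (values in `E`) all
`φ i ∘ f` are in `ZE` (values in `ℚ_[2]`). Put `inv' f = Σ i, algebraMap (inv (φ i ∘ f)) * e i`.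
* additivity: clear (`φ i ∘ (f + f') = ...`, `InvMap.add`).
* homogeneity: for `a` in `E` let `M i j = φ i (a * e j)`; `φ i (a * x) = Σ j, M i j * φ j x`, so
  `inv (φ i ∘ (a f)) = Σ j, M i j * inv (φ j ∘ f)` (finite sums: induction with `InvMap.add`, `smul`),
  and `Σ i, M i j • e i = a * e j`.
* kernel: `inv' f = 0` iff all `inv (φ i ∘ f) = 0` (basis) iff `φ i ∘ f = dE χ (z i)`, `z i` in `N1`, iff
  `f = dE χ (Σ i, z i • e i)`.
* `kap`: clear.
-/

set_option autoImplicit false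

namespace Pool.Agent.Work.MP_787500_nt.KP

open Pool.Agent.Work.MP_787500_nt.KR (FSys Sm1 Sm2 IsChar C1)
open Pool.Agent.Work.MP_787500_nt.PA (dd toE dE)

namespace InvEAux

variable {G : Type*} [Group G] {S : FSys G} {χ : G → ℤ_[2]}

theorem toE_mul {E : Type*} [NormedField E] [NormedAlgebra ℚ_[2] E] (a : ℤ_[2]) (x : E) :
    toE E a * x = (a : ℚ_[2]) • x := by
  rw [toE, Algebra.smul_def]

section lin

variable {A B : Type*} [NormedField A] [NormedAlgebra ℚ_[2] A] [NormedField B]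
  [NormedAlgebra ℚ_[2] B]

theorem N1_comp (L : A →L[ℚ_[2]] B) {z : G → A} (hz : N1 S z) : N1 S (fun g => L (z g)) := by
  intro ε hε
  have hpos : 0 < ‖L‖ + 1 := by positivity
  obtain ⟨W, hW, h⟩ := hz (ε / (‖L‖ + 1)) (by positivity)
  refine ⟨W, hW, fun g w hw => ?_⟩
  have h1 := h g w hw
  calc ‖L (z (g * w)) - L (z g)‖ = ‖L (z (g * w) - z g)‖ := by rw [map_sub]
    _ ≤ ‖L‖ * ‖z (g * w) - z g‖ := L.le_opNorm _
    _ ≤ (‖L‖ + 1) * ‖z (g * w) - z g‖ := by
        have := norm_nonneg (z (g * w) - z g)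
        nlinarith
    _ < (‖L‖ + 1) * (ε / (‖L‖ + 1)) := by
        exact mul_lt_mul_of_pos_left h1 hpos
    _ = ε := by field_simp

theorem N2_comp (L : A →L[ℚ_[2]] B) {f : G → G → A} (hf : N2 S f) :
    N2 S (fun g h => L (f g h)) := by
  intro ε hε
  have hpos : 0 < ‖L‖ + 1 := by positivity
  obtain ⟨W, hW, h⟩ := hf (ε / (‖L‖ + 1)) (by positivity)
  refine ⟨W, hW, fun g k w hw w' hw' => ?_⟩
  have h1 := h g k w hw w' hw'
  calc ‖L (f (g * w) (k * w')) - L (f g k)‖ = ‖L (f (g * w) (k * w') - f g k)‖ := by rw [map_sub]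
    _ ≤ ‖L‖ * ‖f (g * w) (k * w') - f g k‖ := L.le_opNorm _
    _ ≤ (‖L‖ + 1) * ‖f (g * w) (k * w') - f g k‖ := by
        have := norm_nonneg (f (g * w) (k * w') - f g k)
        nlinarith
    _ < (‖L‖ + 1) * (ε / (‖L‖ + 1)) := by
        exact mul_lt_mul_of_pos_left h1 hpos
    _ = ε := by field_simp

theorem ZE_comp (L : A →L[ℚ_[2]] B) {f : G → G → A} (hf : ZE S χ f) :
    ZE S χ (fun g h => L (f g h)) := by
  refine ⟨N2_comp L hf.1, fun g h k => ?_⟩
  have h1 := hf.2 g h k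
  rw [toE_mul] at h1 ⊢
  rw [← map_smul, ← map_add, ← map_add, h1]

theorem dE_comp (L : A →L[ℚ_[2]] B) (z : G → A) (g h : G) :
    L (dE χ z g h) = dE χ (fun g => L (z g)) g h := by
  simp only [dE, toE_mul, map_sub, map_add, map_smul]

theorem BE_comp (L : A →L[ℚ_[2]] B) {f : G → G → A} (hf : BE S χ f) :
    BE S χ (fun g h => L (f g h)) := by
  obtain ⟨z, hz, rfl⟩ := hf
  refine ⟨fun g => L (z g), N1_comp L hz, ?_⟩
  funext g h
  exact dE_comp L z g h

end lin

section sums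

variable {E : Type*} [NormedField E] [NormedAlgebra ℚ_[2] E]

theorem N1_add {z z' : G → E} (hz : N1 S z) (hz' : N1 S z') : N1 S (fun g => z g + z' g) := by
  intro ε hε
  obtain ⟨W, hW, h⟩ := hz (ε / 2) (by positivity)
  obtain ⟨W', hW', h'⟩ := hz' (ε / 2) (by positivity)
  refine ⟨W ⊓ W', S.inf hW hW', fun g w hw => ?_⟩
  have e : z (g * w) + z' (g * w) - (z g + z' g) = (z (g * w) - z g) + (z' (g * w) - z' g) := by
    ring
  rw [e]
  calc _ ≤ ‖z (g * w) - z g‖ + ‖z' (g * w) - z' g‖ := norm_add_le _ _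
    _ < ε / 2 + ε / 2 := add_lt_add (h g w hw.1) (h' g w hw.2)
    _ = ε := by ring

theorem N2_add {f f' : G → G → E} (hf : N2 S f) (hf' : N2 S f') :
    N2 S (fun g h => f g h + f' g h) := by
  intro ε hε
  obtain ⟨W, hW, h⟩ := hf (ε / 2) (by positivity)
  obtain ⟨W', hW', h'⟩ := hf' (ε / 2) (by positivity)
  refine ⟨W ⊓ W', S.inf hW hW', fun g k w hw w' hw' => ?_⟩
  have e : f (g * w) (k * w') + f' (g * w) (k * w') - (f g k + f' g k) =
    (f (g * w) (k * w') - f g k) + (f' (g * w) (k * w') - f' g k) := by ring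
  rw [e]
  calc _ ≤ ‖f (g * w) (k * w') - f g k‖ + ‖f' (g * w) (k * w') - f' g k‖ := norm_add_le _ _
    _ < ε / 2 + ε / 2 := add_lt_add (h g k w hw.1 w' hw'.1) (h' g k w hw.2 w' hw'.2)
    _ = ε := by ring

theorem N1_zero : N1 S (fun _ => (0 : E)) := by
  intro ε hε
  obtain ⟨W, hW⟩ := S.ex
  exact ⟨W, hW, fun _ _ _ => by simpa using hε⟩

theorem N2_zero : N2 S (fun _ _ => (0 : E)) := by
  intro ε hε
  obtain ⟨W, hW⟩ := S.ex
  exact ⟨W, hW, fun _ _ _ _ _ _ => by simpa using hε⟩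

theorem ZE_zero : ZE S χ (fun _ _ => (0 : E)) := ⟨N2_zero, fun _ _ _ => by simp⟩

theorem ZE_add {f f' : G → G → E} (hf : ZE S χ f) (hf' : ZE S χ f') :
    ZE S χ (fun g h => f g h + f' g h) := by
  refine ⟨N2_add hf.1 hf'.1, fun g h k => ?_⟩
  have h1 := hf.2 g h k
  have h2 := hf'.2 g h k
  linear_combination h1 + h2

theorem N2_mul (a : E) {f : G → G → E} (hf : N2 S f) : N2 S (fun g h => a * f g h) := by
  intro ε hε
  have hpos : 0 < ‖a‖ + 1 := by positivity
  obtain ⟨W, hW, h⟩ := hf (ε / (‖a‖ + 1)) (by positivity)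
  refine ⟨W, hW, fun g k w hw w' hw' => ?_⟩
  have h1 := h g k w hw w' hw'
  calc ‖a * f (g * w) (k * w') - a * f g k‖ = ‖a‖ * ‖f (g * w) (k * w') - f g k‖ := by
        rw [← mul_sub, norm_mul]
    _ ≤ (‖a‖ + 1) * ‖f (g * w) (k * w') - f g k‖ := by
        have := norm_nonneg (f (g * w) (k * w') - f g k)
        nlinarith
    _ < (‖a‖ + 1) * (ε / (‖a‖ + 1)) := by
        exact mul_lt_mul_of_pos_left h1 hpos
    _ = ε := by field_simp

theorem ZE_mul (a : E) {f : G → G → E} (hf : ZE S χ f) : ZE S χ (fun g h => a * f g h) := by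
  refine ⟨N2_mul a hf.1, fun g h k => ?_⟩
  have h1 := hf.2 g h k
  linear_combination a * h1

theorem ZE_sum {ι : Type*} (s : Finset ι) (M : ι → E) (F : ι → G → G → E)
    (hF : ∀ i, ZE S χ (F i)) : ZE S χ (fun g h => ∑ i ∈ s, M i * F i g h) := by
  classical
  induction s using Finset.induction_on with
  | empty => simpa using (ZE_zero (S := S) (χ := χ) (E := E))
  | insert i s hi ih =>
    simp only [Finset.sum_insert hi]
    exact ZE_add (ZE_mul _ (hF i)) ih

theorem N1_sum {ι : Type*} (s : Finset ι) (z : ι → G → E) (hz : ∀ i, N1 S (z i)) :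
    N1 S (fun g => ∑ i ∈ s, z i g) := by
  classical
  induction s using Finset.induction_on with
  | empty => simpa using (N1_zero (S := S) (E := E))
  | insert i s hi ih =>
    simp only [Finset.sum_insert hi]
    exact N1_add (hz i) ih

end sums

end InvEAux

end Pool.Agent.Work.MP_787500_nt.KP
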