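import Mathlib
import Pool.Agent.Work.MP_787500_nt.KP.InvE

/-!
# Module QTWO (size M): the invariant map with values in the field of 2-adic numbers

`E = ℚ_[2]`; `toE ℚ_[2] a = a`.
1. A function `f` with `N2 S f` is bounded: take `W` for `ε = 1`; `W` has finite index
   (`FSys.index`), so `f` takes, up to distance 1, finitely many values. So if `ZE S χ f` there is `k`
   with `2 ^ k * f g h` integral for all `g, h`: `2 ^ k f = f'` with `f' : G → G → ℤ_[2]`, and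
   `Z2 S χ f'` (`2 ^ n ∣ x ↔ ‖x‖ ≤ 2 ^ (-n)`, `PadicInt.norm_le_pow_iff_mem_span_pow`). Conversely
   `Z2` and `B2` go to `ZE` and `BE`; the same for one variable.
2. `hcyc` gives for `f` in `ZE` some `a` in `ℚ_[2]` with `f - a n0` in `BE`.
3. If `n0` (as a function with values in `ℚ_[2]`) is in `BE`, every `f` in `ZE` is in `BE`; take
   `inv = 0`. Otherwise the `a` in 2. is unique (`(a - a') n0` in `BE` with `a ≠ a'` gives `n0` in
   `BE`); let `inv f` be this `a` (and anything, say 0, for `f` not in `ZE`). Additivity, homogeneity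
   and the kernel are clear (`BE` is a subspace). `kap`: by `hsign`, `f ∘ κ - f` is in `BE` for
   `f` in `ZE` (and `f ∘ κ` is in `ZE`, by `hκ`).
-/

set_option autoImplicit false

namespace Pool.Agent.Work.MP_787500_nt.KP

open Pool.Agent.Work.MP_787500_nt.KR (FSys Sm1 Sm2 IsChar C1)
open Pool.Agent.Work.MP_787500_nt.PA (dd toE dE)

namespace QTwoAux

open InvEAux

variable {G : Type*} [Group G] {S : FSys G} {χ : G → ℤ_[2]}

theorem dvd_iff (x : ℤ_[2]) (n : ℕ) : (2 : ℤ_[2]) ^ n ∣ x ↔ ‖x‖ ≤ (2 : ℝ) ^ (-n : ℤ) := by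
  have h := PadicInt.norm_le_pow_iff_mem_span_pow x n
  rw [Ideal.mem_span_singleton] at h
  simpa using h.symm

theorem toEQ (a : ℤ_[2]) : toE ℚ_[2] a = (a : ℚ_[2]) := rfl

theorem exists_pow_lt {ε : ℝ} (hε : 0 < ε) : ∃ n : ℕ, (2 : ℝ) ^ (-n : ℤ) < ε := by
  obtain ⟨n, hn⟩ := exists_pow_lt_of_lt_one hε (show (1 / 2 : ℝ) < 1 by norm_num)
  refine ⟨n, ?_⟩
  rw [zpow_neg, zpow_natCast]
  rwa [one_div, inv_pow] at hn

theorem C1.n1 {z : G → ℤ_[2]} (hz : C1 S z) : N1 S (fun g => (z g : ℚ_[2])) := by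
  intro ε hε
  obtain ⟨n, hn⟩ := exists_pow_lt hε
  obtain ⟨W, hW, h⟩ := hz n
  refine ⟨W, hW, fun g w hw => lt_of_le_of_lt ?_ hn⟩
  have h1 := (dvd_iff _ _).1 (h g w hw)
  rw [← PadicInt.coe_sub]
  exact h1

theorem C2.n2 {f : G → G → ℤ_[2]} (hf : C2 S f) : N2 S (fun g h => (f g h : ℚ_[2])) := by
  intro ε hε
  obtain ⟨n, hn⟩ := exists_pow_lt hε
  obtain ⟨W, hW, h⟩ := hf n
  refine ⟨W, hW, fun g k w hw w' hw' => lt_of_le_of_lt ?_ hn⟩
  have h1 := (dvd_iff _ _).1 (h g k w hw w' hw')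
  rw [← PadicInt.coe_sub]
  exact h1

theorem Z2.ze {f : G → G → ℤ_[2]} (hf : Z2 S χ f) : ZE S χ (fun g h => (f g h : ℚ_[2])) := by
  refine ⟨C2.n2 hf.1, fun g h k => ?_⟩
  have h1 := hf.2 g h k
  rw [toEQ]
  have h2 := congrArg (fun x : ℤ_[2] => (x : ℚ_[2])) h1
  simp only [PadicInt.coe_add, PadicInt.coe_mul] at h2
  exact h2

theorem B2.be {f : G → G → ℤ_[2]} (hf : B2 S χ f) : BE S χ (fun g h => (f g h : ℚ_[2])) := by
  obtain ⟨z, hz, rfl⟩ := hf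
  refine ⟨fun g => (z g : ℚ_[2]), C1.n1 hz, ?_⟩
  funext g h
  simp only [dd, dE, toEQ]
  push_cast
  ring

section
variable {E : Type*} [NormedField E] [NormedAlgebra ℚ_[2] E]

theorem N1_mul (a : E) {z : G → E} (hz : N1 S z) : N1 S (fun g => a * z g) := by
  intro ε hε
  have hpos : 0 < ‖a‖ + 1 := by positivity
  obtain ⟨W, hW, h⟩ := hz (ε / (‖a‖ + 1)) (by positivity)
  refine ⟨W, hW, fun g w hw => ?_⟩
  have h1 := h g w hw
  calc ‖a * z (g * w) - a * z g‖ = ‖a‖ * ‖z (g * w) - z g‖ := by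
        rw [← mul_sub, norm_mul]
    _ ≤ (‖a‖ + 1) * ‖z (g * w) - z g‖ := by
        have := norm_nonneg (z (g * w) - z g)
        nlinarith
    _ < (‖a‖ + 1) * (ε / (‖a‖ + 1)) := by
        exact mul_lt_mul_of_pos_left h1 hpos
    _ = ε := by field_simp

theorem BE_add {f f' : G → G → E} (hf : BE S χ f) (hf' : BE S χ f') :
    BE S χ (fun g h => f g h + f' g h) := by
  obtain ⟨z, hz, rfl⟩ := hf
  obtain ⟨z', hz', rfl⟩ := hf'
  refine ⟨_, N1_add hz hz', ?_⟩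
  funext g h
  simp only [dE]
  ring

theorem BE_mul (a : E) {f : G → G → E} (hf : BE S χ f) : BE S χ (fun g h => a * f g h) := by
  obtain ⟨z, hz, rfl⟩ := hf
  refine ⟨_, N1_mul a hz, ?_⟩
  funext g h
  simp only [dE]
  ring


end

theorem bounded {f : G → G → ℚ_[2]} (hf : N2 S f) : ∃ M : ℝ, ∀ g h, ‖f g h‖ ≤ M := by
  classical
  obtain ⟨W, hW, h⟩ := hf 1 one_pos
  have hfin : W.FiniteIndex := ⟨S.index hW⟩
  have : Finite (G ⧸ W) := inferInstance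
  let v : (G ⧸ W) × (G ⧸ W) → ℝ := fun q => ‖f q.1.out q.2.out‖
  obtain ⟨M, hM⟩ := (Set.finite_range v).bddAbove
  refine ⟨M + 1, fun g k => ?_⟩
  have h1 : ∀ g : G, ∃ w ∈ W, g = (QuotientGroup.mk g : G ⧸ W).out * w := by
    intro g
    obtain ⟨w, hw⟩ := QuotientGroup.mk_out_eq_mul W g
    refine ⟨(w : G)⁻¹, W.inv_mem w.2, ?_⟩
    rw [hw]
    group
  obtain ⟨w, hw, hg⟩ := h1 g
  obtain ⟨w', hw', hk'⟩ := h1 k
  have h2 := h (QuotientGroup.mk g : G ⧸ W).out (QuotientGroup.mk k : G ⧸ W).out w hw w' hw'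
  rw [← hg, ← hk'] at h2
  have h3 : ‖f (QuotientGroup.mk g : G ⧸ W).out (QuotientGroup.mk k : G ⧸ W).out‖ ≤ M :=
    hM ⟨(QuotientGroup.mk g, QuotientGroup.mk k), rfl⟩
  calc ‖f g k‖ = ‖(f g k - f (QuotientGroup.mk g : G ⧸ W).out (QuotientGroup.mk k : G ⧸ W).out) +
        f (QuotientGroup.mk g : G ⧸ W).out (QuotientGroup.mk k : G ⧸ W).out‖ := by ring_nf
    _ ≤ _ := norm_add_le _ _
    _ ≤ 1 + M := add_le_add h2.le h3
    _ = M + 1 := add_comm _ _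

theorem clear {f : G → G → ℚ_[2]} (hf : ZE S χ f) :
    ∃ (k : ℕ) (f' : G → G → ℤ_[2]), Z2 S χ f' ∧ ∀ g h, 2 ^ k * f g h = (f' g h : ℚ_[2]) := by
  obtain ⟨M, hM⟩ := bounded hf.1
  obtain ⟨k, hk⟩ := exists_pow_lt (show (0 : ℝ) < 1 / (|M| + 1) by positivity)
  have hn : ∀ x : ℚ_[2], ‖(2 : ℚ_[2]) ^ k * x‖ = (2 : ℝ) ^ (-k : ℤ) * ‖x‖ := by
    intro x
    rw [norm_mul, norm_pow]
    have h2 : ‖(2 : ℚ_[2])‖ = 2⁻¹ := by
      have := Padic.norm_p (p := 2)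
      simpa using this
    rw [h2, zpow_neg, zpow_natCast, inv_pow]
  have hint : ∀ g h, ‖(2 : ℚ_[2]) ^ k * f g h‖ ≤ 1 := by
    intro g h
    rw [hn]
    have h1 : ‖f g h‖ ≤ |M| + 1 := (hM g h).trans ((le_abs_self M).trans (by linarith))
    calc (2 : ℝ) ^ (-k : ℤ) * ‖f g h‖ ≤ (1 / (|M| + 1)) * (|M| + 1) :=
          mul_le_mul hk.le h1 (norm_nonneg _) (by positivity)
      _ = 1 := by
          have : (|M| + 1) ≠ 0 := by positivity
          field_simp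
  let f' : G → G → ℤ_[2] := fun g h => ⟨2 ^ k * f g h, hint g h⟩
  have hf' : ∀ g h, 2 ^ k * f g h = (f' g h : ℚ_[2]) := fun _ _ => rfl
  refine ⟨k, f', ⟨fun n => ?_, fun g h l => ?_⟩, hf'⟩
  · obtain ⟨W, hW, h⟩ := hf.1 ((2 : ℝ) ^ (-n : ℤ)) (by positivity)
    refine ⟨W, hW, fun g l w hw w' hw' => ?_⟩
    rw [dvd_iff, ← PadicInt.padic_norm_e_of_padicInt, PadicInt.coe_sub, ← hf', ← hf', ← mul_sub, hn]
    have h1 := (h g l w hw w' hw').le
    calc (2 : ℝ) ^ (-k : ℤ) * ‖f (g * w) (l * w') - f g l‖ ≤ 1 * (2 : ℝ) ^ (-n : ℤ) := by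
          refine mul_le_mul ?_ h1 (norm_nonneg _) zero_le_one
          rw [zpow_neg, zpow_natCast]
          exact inv_le_one_of_one_le₀ (one_le_pow₀ (by norm_num))
      _ = _ := one_mul _
  · apply PadicInt.ext
    push_cast
    rw [← hf', ← hf', ← hf', ← hf']
    have h1 := hf.2 g h l
    rw [toEQ] at h1
    linear_combination (2 : ℚ_[2]) ^ k * h1

end QTwoAux

end Pool.Agent.Work.MP_787500_nt.KP
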